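import Pool.Agent.H676.SC.Stm

/-!
# Project SC, task SC-GEN (helper401)

The number of relabelings with a given output.
-/

set_option autoImplicit false

namespace Pool.Agent.H401.SC.GEN

open Finset Pool.Agent.H676.SC

variable {V D L : Type}

theorem value_eq (C : Circuit V D L) (G : SimpleGraph V) (g : C.Gate) :
    C.value G g = C.fn g (inp C G g).1 (inp C G g).2 := by
  rw [Circuit.value]
  unfold inp
  have h : ((C.wires g).attach.map fun e => (e.1.1, C.value G e.1.2)) =
      (C.wires g).map fun e => (e.1, C.value G e.2) :=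
    Multiset.attach_map_val' (C.wires g) fun e => (e.1, C.value G e.2)
  simp only [h]

theorem nat_card_filter {ι : Type} (X : Finset ι) (P : ι → Prop) [DecidablePred P] :
    Nat.card {x : ι // x ∈ X ∧ P x} = (X.filter P).card := by
  rw [Nat.card_congr (Equiv.subtypeEquivRight
    (fun x => (Finset.mem_filter (s := X) (p := P) (a := x)).symm)), Nat.card_eq_fintype_card,
    Fintype.card_coe]

/-- double counting -/
theorem sum_count {ι α β : Type} [DecidableEq β] (X : Finset ι) (f : ι → α → β) (c : β)
    (W : Multiset α) :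
    ∑ x ∈ X, (W.map (f x)).count c =
      (W.map fun e => Nat.card {x : ι // x ∈ X ∧ f x e = c}).sum := by
  induction W using Multiset.induction_on with
  | empty => simp
  | cons a W ih =>
    rw [Multiset.map_cons, Multiset.sum_cons, ← ih, nat_card_filter, Finset.card_filter,
      ← Finset.sum_add_distrib]
    refine Finset.sum_congr rfl fun x _ => ?_
    rw [Multiset.map_cons, Multiset.count_cons, add_comm]
    simp only [eq_comm]

theorem gr_mono {ι W : Type} {D₁ D₂ : Finset ι} (h : D₁ ⊆ D₂) (p : ι → V) (q : ι → W) :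
    gr D₁ p q ⊆ gr D₂ p q :=
  Set.image_mono (Finset.coe_subset.2 h)

theorem main_claim [Fintype V] [DecidableEq V] (h1 : S_INV) (h2 : S_READ) (h3 : S_CNT)
    (C : Circuit V D L) (k : ℕ) (A B : SimpleGraph V) (R : Set (V × V) → Prop)
    (hBF : BF (2 * k) A B R) (hA : k + 1 ≤ {v : V | ∀ w, ¬ A.Adj v w}.ncard)
    (hB : k + 1 ≤ {v : V | ∀ w, ¬ B.Adj v w}.ncard) (hV : k + 4 ≤ Fintype.card V)
    (Δ : C.Gate → Finset V) (hΔ : ∀ g, (Δ g).card < k ∧ ESupp C g (Δ g)) :
    ∀ (n : ℕ) (g : C.Gate), C.rank g < n → ∀ p q : Equiv.Perm V, R (gr (Δ g) p q) →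
      inp C (A.comap p) g = inp C (B.comap q) g := by
  classical
  intro n
  induction n with
  | zero => intro g hg; omega
  | succ n ih =>
    intro g hg p q hR
    have hc := (hΔ g).1
    refine Prod.ext ?_ ?_
    · show (C.read g).map (bit (A.comap p)) = (C.read g).map (bit (B.comap q))
      cases hr : C.read g with
      | none => rfl
      | some c =>
        obtain ⟨a, b⟩ := c
        show some _ = some _
        have key : (A.comap p).Adj a b ↔ (B.comap q).Adj a b := by
          by_cases hab : a = b
          · subst hab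
            exact ⟨fun h => absurd rfl h.ne, fun h => absurd rfl h.ne⟩
          · obtain ⟨ha, hb⟩ := h2 V D L C g (Δ g) (hΔ g).2 (by omega) a b hr hab
            exact (hBF.2.2.1 _ hR (p a, q a) ⟨a, ha, rfl⟩ (p b, q b) ⟨b, hb, rfl⟩).2
        exact congrArg some (decide_eq_decide.2 key)
    · show ((C.wires g).map fun e => (e.1, C.value (A.comap p) e.2)) =
        (C.wires g).map fun e => (e.1, C.value (B.comap q) e.2)
      refine Multiset.ext.2 fun c => ?_
      obtain ⟨X, hX⟩ : ∃ X : Finset (Equiv.Perm V),
        X = univ.filter fun p' => ∀ x ∈ Δ g, p' x = p x := ⟨_, rfl⟩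
      obtain ⟨Y, hY⟩ : ∃ Y : Finset (Equiv.Perm V),
        Y = univ.filter fun q' => ∀ x ∈ Δ g, q' x = q x := ⟨_, rfl⟩
      have hXm : ∀ p', p' ∈ X ↔ ∀ x ∈ Δ g, p' x = p x := by
        intro p'
        rw [hX, Finset.mem_filter]
        exact ⟨fun h => h.2, fun h => ⟨Finset.mem_univ _, h⟩⟩
      have hYm : ∀ q', q' ∈ Y ↔ ∀ x ∈ Δ g, q' x = q x := by
        intro p'
        rw [hY, Finset.mem_filter]
        exact ⟨fun h => h.2, fun h => ⟨Finset.mem_univ _, h⟩⟩
      clear hX hY
      have hXc : ∀ (P : Equiv.Perm V → Prop),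
          Nat.card {p' : Equiv.Perm V // (∀ x ∈ Δ g, p' x = p x) ∧ P p'} =
            Nat.card {p' : Equiv.Perm V // p' ∈ X ∧ P p'} := fun P =>
        Nat.card_congr (Equiv.subtypeEquivRight fun p' => and_congr_left' (hXm p').symm)
      have hYc : ∀ (P : Equiv.Perm V → Prop),
          Nat.card {p' : Equiv.Perm V // (∀ x ∈ Δ g, p' x = q x) ∧ P p'} =
            Nat.card {p' : Equiv.Perm V // p' ∈ Y ∧ P p'} := fun P =>
        Nat.card_congr (Equiv.subtypeEquivRight fun p' => and_congr_left' (hYm p').symm)
      have hXY : X.card = Y.card := by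
        have h := h3 V A B (2 * k) R hBF (Δ g) (Δ g) (Subset.refl _) (by omega) p q hR
          (fun _ => True) (fun _ => True) (fun _ _ _ => Iff.rfl)
        rw [hXc, hYc, nat_card_filter, nat_card_filter,
          Finset.filter_true_of_mem (fun _ _ => trivial),
          Finset.filter_true_of_mem (fun _ _ => trivial)] at h
        exact h
      have hpX : p ∈ X := (hXm p).2 fun _ _ => rfl
      have hX0 : 0 < X.card := Finset.card_pos.2 ⟨p, hpX⟩
      have e1 : ∑ p' ∈ X, ((C.wires g).map fun e => (e.1, C.value (A.comap p') e.2)).count c =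
          X.card * ((C.wires g).map fun e => (e.1, C.value (A.comap p) e.2)).count c := by
        rw [Finset.sum_const_nat]
        intro p' hp'
        have h := congrArg Prod.snd (h1 V D L C g (Δ g) (hΔ g).2 A (by omega) p' p
          ((hXm p').1 hp'))
        exact congrArg (Multiset.count c) h
      have e2 : ∑ p' ∈ Y, ((C.wires g).map fun e => (e.1, C.value (B.comap p') e.2)).count c =
          Y.card * ((C.wires g).map fun e => (e.1, C.value (B.comap q) e.2)).count c := by
        rw [Finset.sum_const_nat]
        intro p' hp'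
        have h := congrArg Prod.snd (h1 V D L C g (Δ g) (hΔ g).2 B (by omega) p' q
          ((hYm p').1 hp'))
        exact congrArg (Multiset.count c) h
      have e3 : ∑ p' ∈ X, ((C.wires g).map fun e => (e.1, C.value (A.comap p') e.2)).count c =
          ∑ p' ∈ Y, ((C.wires g).map fun e => (e.1, C.value (B.comap p') e.2)).count c := by
        rw [sum_count X (fun (p' : Equiv.Perm V) (e : L × C.Gate) =>
            (e.1, C.value (A.comap p') e.2)) c,
          sum_count Y (fun (p' : Equiv.Perm V) (e : L × C.Gate) =>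
            (e.1, C.value (B.comap p') e.2)) c]
        refine congrArg Multiset.sum (Multiset.map_congr rfl fun e he => ?_)
        have hrk := C.rank_lt g e he
        have hce := (hΔ e.2).1
        have h := h3 V A B (2 * k) R hBF (Δ g) (Δ g ∪ Δ e.2) Finset.subset_union_left
          ((Finset.card_union_le _ _).trans (by omega)) p q hR
          (fun p' => (e.1, C.value (A.comap p') e.2) = c)
          (fun q' => (e.1, C.value (B.comap q') e.2) = c) (fun p' q' hpq => by
            have hR' : R (gr (Δ e.2) p' q') :=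
              hBF.2.1 _ _ (gr_mono Finset.subset_union_right _ _) hpq
            have hi := ih e.2 (by omega) p' q' hR'
            rw [value_eq C (A.comap p') e.2, value_eq C (B.comap q') e.2, hi])
        rw [hXc, hYc] at h
        exact h
      rw [e1, e2, ← hXY] at e3
      exact Nat.eq_of_mul_eq_mul_left hX0 e3

theorem t_GEN (h1 : Pool.Agent.H676.SC.S_INV) (h2 : Pool.Agent.H676.SC.S_READ)
    (h3 : Pool.Agent.H676.SC.S_CNT) : Pool.Agent.H676.SC.S_GEN := by
  intro V D L _ _ C k A B R hBF hA hB hV Δ hΔ d
  have hc := (hΔ C.out).1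
  have h := h3 V A B (2 * k) R hBF ∅ (Δ C.out) (Finset.empty_subset _) (by omega) 1 1
    (by
      have h0 : gr (∅ : Finset V) ((1 : Equiv.Perm V) : V → V) ((1 : Equiv.Perm V) : V → V) = ∅ := by
        unfold gr
        rw [Finset.coe_empty, Set.image_empty]
      rw [h0]
      exact hBF.1)
    (fun p => C.output (A.comap p) = d) (fun q => C.output (B.comap q) = d) (fun p q hpq => by
      have hi := main_claim h1 h2 h3 C k A B R hBF hA hB hV Δ hΔ (C.rank C.out + 1) C.out
        (Nat.lt_succ_self _) p q hpq
      unfold Circuit.output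
      rw [value_eq C (A.comap p) C.out, value_eq C (B.comap q) C.out, hi])
  have e1 : Nat.card {σ : Equiv.Perm V // C.output (A.comap σ) = d} =
      Nat.card {p : Equiv.Perm V // (∀ x ∈ (∅ : Finset V), p x = (1 : Equiv.Perm V) x) ∧
        C.output (A.comap p) = d} :=
    Nat.card_congr (Equiv.subtypeEquivRight fun σ =>
      ⟨fun h => ⟨fun x hx => absurd hx (Finset.notMem_empty x), h⟩, fun h => h.2⟩)
  have e2 : Nat.card {σ : Equiv.Perm V // C.output (B.comap σ) = d} =
      Nat.card {p : Equiv.Perm V // (∀ x ∈ (∅ : Finset V), p x = (1 : Equiv.Perm V) x) ∧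
        C.output (B.comap p) = d} :=
    Nat.card_congr (Equiv.subtypeEquivRight fun σ =>
      ⟨fun h => ⟨fun x hx => absurd hx (Finset.notMem_empty x), h⟩, fun h => h.2⟩)
  rw [e1, e2]
  exact h

end Pool.Agent.H401.SC.GEN
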